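import Pool.Agent.H299.RDE.Cert

set_option linter.all false
set_option maxRecDepth 100000

namespace Pool.Agent.H299.RDE.U11

open Pool.Agent.H299.RDE

def z : Tree := .leaf []

def c2_8 : Cert := ⟨2, 8, [0, -1, 0, 0, 0], [0, 0, 0, 0, 0], [2, 0, 1], 6, 12, 3000, 6, [-42720010, -35370092, -14607015, 7349917],
  .leaf [529416, 662536, 537608, 669704, 539656, 278536, 532489, 1188873, 1189897, 666633, 532506, 1188890, 1189914, 666650, 529435, 662555, 537627, 669723, 539675, 278555, 524308, 131077, 131150, 131158]⟩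

def c2_12 : Cert := ⟨2, 12, [0, 0, 0, 0, 0], [0, 0, 3, -3, 0], [1], 5, 7, 3000, 8, [-197688, 101247, 298932, 197682],
  .node true 12 z z (.node true 11 z z (.leaf [142344, 143368, 138249, 139273, 140297, 138258, 139290, 140314, 142355, 143379, 131077, 131134]) (.leaf [142344, 143368, 138249, 139273, 138258, 139282, 142363, 143379, 131134]) z) (.node true 10 z z (.leaf [141320, 138249, 139273, 138258, 139282, 143378, 141331, 143387, 131077]) (.leaf [141320, 138249, 138258, 143378, 141339, 143387, 131086]) z) z⟩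

def c2_16 : Cert := ⟨2, 16, [0, 1, 0, 0, 0], [0, 0, 0, 0, -1], [1], 8, 12, 3000, 14, [254778, 68589, -82073, -168303],
  .leaf [1708040, 2758664, 1711112, 2761736, 540680, 1459208, 1460232, 1461256, 937992, 1712137, 1058825, 3419145, 4337673, 3814409, 2373641, 932873, 1712162, 1058850, 3419170, 4337698, 3814434, 2373666, 932898, 1708067, 2758691, 1711139, 2761763, 540707, 1459235, 1460259, 1461283, 938019, 2752564, 1704004, 2883589, 524382, 917606]⟩

def c3_1 : Cert := ⟨3, 1, [-4, 4, 0, 0, 0], [1, 0, 0, 0, 0], [1, 1], 4, 6, 3000, 7, [11273, 62300, 36525, -1540],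
  .leaf [135176, 267272, 268296, 269320, 270344, 271368, 141320, 135171, 267267, 268291, 269315, 270339, 271363, 141315, 131126]⟩

def c4_1 : Cert := ⟨4, 1, [0, 0, 1, 0, 0], [-1, 0, 0, 0, 0], [1, 1], 4, 6, 3000, 4, [-14725, 63942, -73671, -53068],
  .leaf [136208, 137232, 138256, 139280, 140304, 141328, 136195, 137219, 138243, 139267, 140291, 141315, 131126]⟩

def c4_2 : Cert := ⟨4, 2, [0, 0, 0, 0, 0], [0, 0, 0, 0, 0], [1, 1], 4, 6, 3000, 4, [-23285941, 14391503, -8894438, 5497065],
  .leaf [268304, 139280, 141328, 1052689, 398353, 138257, 1052682, 398346, 138250, 268299, 139275, 141323, 1048588, 524293, 131126]⟩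

def c4_3 : Cert := ⟨4, 3, [0, 0, 29, 0, 0], [3, 21, 0, 0, 0], [1], 4, 6, 3000, 33, [2626, -67649, 2600, -65057],
  .node true 6 (.leaf [137232, 137219, 131094]) (.leaf [137232, 135185, 136209, 135178, 136202, 137227, 131092, 131077, 131094]) z z z⟩

def c4_9 : Cert := ⟨4, 9, [0, 0, -6, 0, 0], [-10, 0, 0, -17, 0], [1], 6, 8, 3000, 7, [327098, -107144, -735290, 925388],
  .node true 8 (.leaf [139280, 139267, 131094]) z z (.leaf [139280, 135185, 136209, 137233, 135170, 136218, 137242, 139291, 131077, 131094]) z⟩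

def c4_10 : Cert := ⟨4, 10, [0, 0, 4, 0, 0], [0, 3, 0, 0, 0], [1], 4, 6, 3000, 5, [3496561, -3496556, 1748281, -1748276],
  .node true 6 z (.leaf [137232, 135185, 136209, 135178, 136202, 137227, 131092, 131077, 131094]) z (.leaf [137232, 135185, 135178, 137243, 131092, 131094]) z⟩

def c4_11 : Cert := ⟨4, 11, [0, 0, 29, 0, 0], [-26, 17, 0, -6, 0], [1], 4, 6, 3000, 5, [20995, -613310, 20940, -592382],
  .node true 6 (.leaf [137232, 137219, 131094]) (.leaf [136209, 136202, 137242, 137227, 131077]) z (.leaf [137232, 135185, 135178, 137243, 131092, 131094]) z⟩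

def c5_1 : Cert := ⟨5, 1, [-1, 0, 1, 0, 0], [-1, 0, 0, 0, 0], [2, 1], 4, 6, 3000, 4, [58, 17107, 56, 17105],
  .leaf [136208, 268304, 138256, 270352, 140304, 272400, 136195, 268291, 138243, 270339, 140291, 272387, 131126]⟩

def c5_2 : Cert := ⟨5, 2, [0, 0, 0, 0, 0], [0, 0, 0, 0, 0], [1], 4, 6, 3000, 4, [-8854016, 8854016, -4427008, 4427008],
  .node false 5 (.leaf [137232, 136193, 136202, 137227, 131077, 131094]) z (.node false 4 (.leaf [137232, 135169, 136209, 135178, 136202, 137227, 262149, 131094]) z (.leaf [137232, 135185, 136209, 135178, 136202, 137227, 131092, 131077, 131094]) z z) z z⟩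

def c5_3 : Cert := ⟨5, 3, [-12, 0, 5, 0, 0], [-2, 28, 0, 0, 0], [1], 4, 6, 3000, 5, [76175, 53198, 27953, -67711],
  .node false 4 (.leaf [135169, 135170, 131077]) z (.node false 5 (.node true 6 (.leaf [137232, 137219, 131094]) (.leaf [137232, 136193, 136202, 137227, 131077, 131094]) z z z) z (.leaf [136192, 135185, 136209, 135178, 131092]) z z) z z⟩

def c5_9 : Cert := ⟨5, 9, [22, 0, 1, 0, 0], [-8, 0, 0, 7, 0], [1], 6, 8, 3000, 6, [-17653, 17677, -17644, 17668],
  .node false 6 (.leaf [137217, 137218, 131077]) z (.node false 5 (.node false 4 (.leaf [135169, 137233, 135170, 137218, 131077]) z (.node true 8 (.leaf [139280, 139267, 131094]) z z (.leaf [139280, 135185, 136193, 137233, 135170, 136218, 137218, 139291, 131077, 131094]) z) z z) z (.leaf [136192, 136209, 137233, 137242, 131092]) z z) z z⟩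

def c5_10 : Cert := ⟨5, 10, [-5, 0, -9, 0, 0], [0, 1, 0, -29, 0], [1, 2], 4, 6, 3000, 4, [8239385, -5092216, 5092210, -3147155],
  .node false 4 (.node true 5 z (.node true 6 z (.leaf [136208, 137216, 397313, 397322, 136203, 137227, 131077, 131094]) z (.leaf [267280, 137216, 659457, 659466, 267275, 137243, 262149, 131094]) z) z (.node true 6 z (.leaf [267280, 268288, 397313, 397322, 267291, 268299, 131084, 262166]) z (.leaf [267280, 137216, 266241, 266250, 267291, 137243, 131084, 131094]) z) z) z (.leaf [135168, 266257, 135178, 131084]) z z⟩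

def c5_11 : Cert := ⟨5, 11, [-19, 0, -4, 0, 0], [-28, 20, 0, -20, 0], [1], 4, 6, 3000, 5, [729473, -729488, 729449, -729464],
  .node false 4 (.leaf [135169, 135170, 131077]) z (.node false 5 (.node true 6 (.leaf [137232, 137219, 131094]) (.leaf [137232, 136193, 136202, 137227, 131077, 131094]) z (.leaf [137232, 135185, 135178, 137243, 131092, 131094]) z) z (.leaf [136192, 135185, 136209, 135178, 131092]) z z) z z⟩

def c6_1 : Cert := ⟨6, 1, [0, 3, -6, 0, 0], [2, 0, 0, 0, 0], [1, 3], 4, 6, 3000, 4, [9119, 9118, 9117, 9116],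
  .leaf [397320, 529416, 530440, 531464, 532488, 533512, 141320, 397315, 529411, 530435, 531459, 532483, 533507, 141315, 131126]⟩

def c6_2 : Cert := ⟨6, 2, [0, 0, 4, 0, 0], [0, -2, 0, 0, 0], [1], 4, 6, 3000, 5, [16013, 2, 16009, 2],
  .node false 5 z (.leaf [137232, 136201, 136202, 137227, 131094]) (.node false 4 z (.leaf [135177, 135178, 131077]) (.leaf [137232, 135185, 136209, 135178, 136202, 137227, 131092, 131077, 131094]) z z) z z⟩

def c6_3 : Cert := ⟨6, 3, [0, -3, 2, 0, 0], [-2, -4, 0, 0, 0], [1], 4, 6, 3000, 5, [14118, 1, 14114, 1],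
  .node false 4 z (.leaf [135177, 135178, 131077]) (.node false 5 z (.node true 6 (.leaf [137232, 137219, 131094]) (.leaf [137232, 136201, 136202, 137227, 131094]) z z z) (.leaf [136200, 135185, 136209, 135178, 131092, 131077]) z z) z z⟩

def c6_9 : Cert := ⟨6, 9, [0, -10, 7, 0, 0], [-3, 0, 0, 2, 0], [1], 6, 8, 3000, 6, [-5, 11622, -2, 11615],
  .node false 6 z (.leaf [137225, 137218, 131084]) (.node true 8 (.leaf [139280, 139267, 131094]) z z (.node false 5 z (.node false 4 z (.leaf [135177, 137233, 135170, 137242, 131077]) (.leaf [139280, 135185, 136201, 135170, 136218, 139291, 131094]) z z) (.leaf [136200, 136209, 137233, 137242, 131077]) z z) z) z z⟩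

def c6_10 : Cert := ⟨6, 10, [0, -17, 23, 0, 0], [0, 27, 0, 4, 0], [1], 4, 6, 3000, 5, [17357, -44, 17317, -44],
  .node false 4 z (.leaf [135177, 135178, 131077]) (.node true 6 z (.node false 5 z (.leaf [137232, 136201, 136202, 137227, 131094]) (.leaf [136209, 136202, 137242, 137227, 131077]) z z) z (.leaf [137232, 135185, 135178, 137243, 131092, 131094]) z) z z⟩

def c6_11 : Cert := ⟨6, 11, [0, 0, 10, 0, 0], [-7, 10, 0, 5, 0], [1], 4, 6, 3000, 5, [5494, -10, 5484, -10],
  .node false 4 z (.leaf [135177, 135178, 131077]) (.node true 6 (.leaf [137232, 137219, 131094]) (.node false 5 z (.leaf [137232, 136201, 136202, 137227, 131094]) (.leaf [136209, 136202, 137242, 137227, 131077]) z z) z (.leaf [137232, 135185, 135178, 137243, 131092, 131094]) z) z z⟩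

def c7_1 : Cert := ⟨7, 1, [-1, -1, 1, 0, 0], [0, 0, 0, 0, 0], [3, 2], 4, 6, 3000, 4, [9324, 9325, 9323, 9324],
  .leaf [791568, 1185808, 793616, 663568, 271368, 403472, 791555, 1185795, 793603, 663555, 271363, 403459, 262174, 131126]⟩

def c7_2 : Cert := ⟨7, 2, [26, 4, 10, 0, 0], [0, -7, 0, 0, 0], [1], 4, 6, 3000, 4, [11, 8092, 11, 8086],
  .node false 5 (.leaf [137232, 136193, 136202, 137227, 131077, 131094]) (.leaf [137232, 136201, 136202, 137227, 131094]) (.node false 4 (.leaf [137232, 135169, 136209, 135178, 136202, 137227, 262149, 131094]) (.leaf [135177, 135178, 131077]) (.leaf [137232, 135185, 136209, 135178, 136202, 137227, 131092, 131077, 131094]) z z) z z⟩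

def c7_3 : Cert := ⟨7, 3, [4, -4, 5, 0, 0], [-4, -8, 0, 0, 0], [1], 4, 6, 3000, 4, [4, 16696, 4, 16687],
  .node false 4 (.leaf [135169, 135170, 131077]) (.leaf [135177, 135178, 131077]) (.node false 5 (.leaf [136200, 136193, 131077]) (.node true 6 (.leaf [137232, 137219, 131094]) (.leaf [137232, 136201, 136202, 137227, 131094]) z z z) (.leaf [136200, 135185, 136209, 135178, 131092, 131077]) z z) z z⟩

def c7_11 : Cert := ⟨7, 11, [-11, 7, 22, 0, 0], [-13, -13, 0, -19, 0], [1], 4, 6, 3000, 5, [10704, 20, 10689, 20],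
  .node false 4 (.leaf [135169, 135170, 131077]) (.leaf [135177, 135178, 131077]) (.node false 5 (.leaf [136200, 136193, 131077]) (.node true 6 (.leaf [137232, 137219, 131094]) (.leaf [137232, 136201, 136202, 137227, 131094]) z (.leaf [137232, 135185, 135178, 137243, 131092, 131094]) z) (.leaf [136200, 135185, 136209, 135178, 131092, 131077]) z z) z z⟩

def c8_1 : Cert := ⟨8, 1, [0, 0, 0, 0, 0], [-10, 0, 0, 0, 0], [1, 0, 1], 4, 6, 3000, 6, [-1603, -13023, 11832, 16795],
  .leaf [136216, 138264, 139288, 141336, 136195, 138243, 139267, 141315, 131126]⟩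

def c8_2 : Cert := ⟨8, 2, [0, 0, 0, 0, 0], [0, 0, 0, 0, 0], [1, 0, 1], 6, 8, 3000, 8, [16637268, -7165440, -3066915, 9471828],
  .leaf [400408, 533528, 274456, 145432, 266265, 530457, 532505, 141337, 144409, 266250, 530442, 532490, 141322, 144394, 400395, 533515, 274443, 145419, 262172, 131077, 131118, 131142]⟩

def c8_4 : Cert := ⟨8, 4, [0, 0, 0, 0, 0], [0, 0, 0, 0, 0], [1, 1], 5, 7, 3000, 5, [-1083210, -779749, 1102133, 18923],
  .leaf [138264, 794648, 666648, 405528, 528409, 1053721, 1054745, 271385, 141337, 528402, 1053714, 1054738, 271378, 141330, 138259, 794643, 666643, 405523, 524316, 524293, 262198, 393278]⟩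

def c8_6 : Cert := ⟨8, 6, [0, 0, 0, -3, 0], [0, -4, 4, 0, 0], [1], 4, 6, 3000, 6, [196636, -121539, -121532, 75111],
  .node true 7 z (.leaf [138264, 135193, 137241, 135178, 137234, 138251, 131100, 131077, 131102]) (.leaf [138264, 135193, 136217, 135186, 136202, 138259, 131100, 131077, 131102]) z z⟩

def c8_7 : Cert := ⟨8, 7, [0, 0, 0, 8, 0], [-1, 10, -10, 0, 0], [1], 4, 6, 3000, 5, [-193046, 8949, -173771, -184095],
  .node true 7 (.leaf [138264, 138243, 131102]) (.leaf [138264, 135193, 137241, 135178, 137234, 138251, 131100, 131077, 131102]) (.leaf [138264, 135193, 136217, 135186, 136202, 138259, 131100, 131077, 131102]) z z⟩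

def c8_18 : Cert := ⟨8, 18, [0, 0, 0, -19, 0], [0, 17, 0, 0, 8], [1], 6, 8, 3000, 8, [604267, -100020, -706509, 504283],
  .node true 11 z (.leaf [141337, 141346, 142370, 142347, 131077]) z z (.node true 9 z (.leaf [402456, 273432, 135193, 136217, 137241, 269337, 139289, 135178, 136226, 137250, 269322, 139298, 402443, 273443, 131077, 393246, 262190]) z z (.leaf [140312, 137241, 137226, 140323, 131100, 131102]))⟩

def c8_20 : Cert := ⟨8, 20, [0, 0, 0, 0, 0], [0, 0, 0, 0, 0], [1], 5, 7, 3000, 5, [-2302656, 2302656, -2302674, -1151328],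
  .node true 8 z z (.leaf [139288, 136217, 137241, 136210, 137250, 139283, 131077, 131102]) z (.leaf [139288, 135193, 136217, 135186, 136226, 139299, 131077, 131102])⟩

def c8_21 : Cert := ⟨8, 21, [0, 0, 0, 0, 0], [-3, 0, -2, 0, 0], [1], 5, 7, 3000, 6, [8447, -175415, -173386, 8444],
  .node true 8 (.leaf [139288, 139267, 131102]) z (.leaf [139288, 136217, 137241, 136210, 137250, 139283, 131077, 131102]) z (.leaf [139288, 135193, 136217, 135186, 136226, 139299, 131077, 131102])⟩

def c8_22 : Cert := ⟨8, 22, [0, 0, 0, -15, 0], [0, 14, 26, 0, 9], [1], 4, 6, 3000, 4, [-4164408, -4164302, 2082151, -2082216],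
  .node true 7 z (.leaf [137241, 137234, 138274, 138251, 131077]) (.leaf [138264, 135193, 136217, 135186, 136202, 138259, 131100, 131077, 131102]) z (.leaf [138264, 135193, 135178, 138275, 131100, 131102])⟩

def c8_23 : Cert := ⟨8, 23, [0, 0, 0, 15, 0], [-13, 4, -11, 0, 1], [1], 4, 6, 3000, 4, [-286257, -282481, 14099, -272184],
  .node true 7 (.leaf [138264, 138243, 131102]) (.leaf [137241, 137234, 138274, 138251, 131077]) (.leaf [138264, 135193, 136217, 135186, 136202, 138259, 131100, 131077, 131102]) z (.leaf [138264, 135193, 135178, 138275, 131100, 131102])⟩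

def c9_4 : Cert := ⟨9, 4, [-1, 0, 0, 1, 0], [0, 0, 1, 0, 0], [1, 1, 2], 5, 7, 3000, 8, [2953982, 1347836, -2150910, 803072],
  .node false 5 (.leaf [400408, 141336, 142336, 143360, 791553, 791570, 400403, 141331, 142355, 143379, 131077, 131110, 131134]) z z (.leaf [400408, 141336, 142336, 143360, 1578009, 1578002, 400403, 141331, 142355, 143379, 786444, 131077, 131110, 131134]) z⟩

def c9_23 : Cert := ⟨9, 23, [-20, 0, 0, -8, 0], [-26, 23, 10, 0, -13], [1], 4, 6, 3000, 7, [-42572, -40913, 83142, 66137],
  .node false 4 (.leaf [135169, 135170, 131077]) z z (.node false 5 (.node false 6 (.node true 7 (.leaf [138264, 138243, 131102]) (.leaf [138264, 137217, 137234, 138251, 131077, 131102]) (.leaf [138264, 136193, 136202, 138259, 131077, 131102]) z (.leaf [138264, 135193, 135178, 138275, 131100, 131102])) z z (.leaf [137216, 135193, 137241, 135178, 131100]) z) z z (.leaf [136192, 135193, 136217, 135186, 131100]) z) z⟩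

def c10_1 : Cert := ⟨10, 1, [0, 1, 0, -2, 0], [-3, 0, 0, 0, 0], [1, 1], 4, 6, 3000, 4, [13756, 13752, 13748, 13744],
  .leaf [135176, 267272, 268296, 269320, 270344, 271368, 141320, 135171, 267267, 268291, 269315, 270339, 271363, 141315, 131126]⟩

def c10_4 : Cert := ⟨10, 4, [0, -21, 0, -13, 0], [0, 0, -27, 0, 0], [1, 1, 2], 4, 6, 3000, 5, [17326, -338, 358, 17670],
  .node false 4 z (.node false 5 z (.leaf [137240, 269336, 139272, 266249, 267273, 266258, 267282, 137235, 269331, 139283, 131110]) z (.leaf [399384, 269320, 139272, 528393, 267289, 528402, 267282, 399379, 269331, 139283, 131110]) z) z (.leaf [923672, 531464, 139272, 3674137, 3674130, 923667, 531475, 139283, 1835020, 524293, 262174, 131110]) z⟩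

def c10_6 : Cert := ⟨10, 6, [0, -12, 0, -21, 0], [0, 26, -17, 0, 0], [1], 4, 6, 3000, 4, [-8856, -38, 8823, -8822],
  .node false 4 z (.leaf [135177, 135178, 131077]) z (.node true 7 z (.node false 6 z (.leaf [137225, 137234, 138258, 138251, 131077]) z (.leaf [138264, 135193, 137241, 135178, 137234, 138251, 131100, 131077, 131102]) z) (.node false 5 z (.leaf [138264, 136201, 136202, 138259, 131102]) z (.leaf [138264, 135193, 136217, 135186, 136202, 138259, 131100, 131077, 131102]) z) z z) z⟩

def c10_7 : Cert := ⟨10, 7, [0, -30, 0, -3, 0], [-19, 3, 1, 0, 0], [1], 4, 6, 3000, 4, [-12967, -33, 12903, -12951],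
  .node false 4 z (.leaf [135177, 135178, 131077]) z (.node true 7 (.leaf [138264, 138243, 131102]) (.node false 6 z (.leaf [137225, 137234, 138258, 138251, 131077]) z (.leaf [138264, 135193, 137241, 135178, 137234, 138251, 131100, 131077, 131102]) z) (.node false 5 z (.leaf [138264, 136201, 136202, 138259, 131102]) z (.leaf [138264, 135193, 136217, 135186, 136202, 138259, 131100, 131077, 131102]) z) z z) z⟩

def c10_21 : Cert := ⟨10, 21, [0, -27, 0, 27, 0], [15, 0, 15, 0, 30], [1], 5, 7, 3000, 5, [-45, 5631, -5706, -45],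
  .node false 5 z (.leaf [136201, 136194, 131084]) z (.node false 6 z (.node true 8 (.leaf [139288, 139267, 131102]) z (.leaf [139288, 136217, 137225, 136194, 137250, 139283, 131102]) z (.node false 4 z (.leaf [139288, 135177, 136217, 135186, 136210, 139299, 131077, 131102]) z (.leaf [139288, 135193, 136217, 135186, 136226, 139299, 131077, 131102]) z)) z (.leaf [137224, 136217, 137241, 136210, 131100, 131077]) z) z⟩

def c11_1 : Cert := ⟨11, 1, [1, 1, 0, 0, 0], [0, 0, 0, 0, 0], [1, 0, 1], 4, 6, 3000, 4, [-84620, 37982, -97212, -35042],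
  .leaf [136200, 136216, 268296, 269320, 270344, 140296, 141320, 267267, 268291, 269315, 270339, 140291, 141315, 131126]⟩

def c12_1 : Cert := ⟨12, 1, [0, 0, 0, -3, 0], [-4, 0, 0, 0, 0], [2, 1], 4, 6, 3000, 6, [-39397, -11388, 95792, 16873],
  .leaf [267280, 530448, 269328, 270352, 140312, 272400, 267267, 530435, 269315, 270339, 140291, 272387, 131102, 131126]⟩

def c12_3 : Cert := ⟨12, 3, [0, 0, 5, -9, 0], [-1, 7, 0, 0, 0], [1], 4, 6, 3000, 4, [-22, 13005, -22, 12999],
  .node false 4 z z (.node true 6 (.leaf [137232, 137219, 131094]) (.node false 5 z z (.leaf [137232, 135185, 136209, 135178, 136202, 137227, 131092, 131077, 131094]) (.leaf [137232, 136217, 136202, 137227, 131092, 131094]) z) z z z) (.leaf [135193, 135170, 131100]) z⟩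

def c12_6 : Cert := ⟨12, 6, [0, 0, -10, 2, 0], [0, -9, -4, 0, 0], [1], 4, 6, 3000, 6, [14060, -6, -14050, 14043],
  .node false 4 z z (.leaf [135185, 135186, 131077]) (.node true 7 z (.node false 6 z z (.leaf [138264, 137233, 137234, 138251, 131102]) (.leaf [138264, 135193, 137241, 135178, 137234, 138251, 131100, 131077, 131102]) z) (.node false 5 z z (.leaf [138264, 135193, 136209, 135178, 136202, 138259, 131100, 131077, 131102]) (.leaf [138264, 135193, 136217, 135186, 136202, 138259, 131100, 131077, 131102]) z) z z) z⟩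

def c12_7 : Cert := ⟨12, 7, [0, 0, -18, 26, 0], [12, 21, 16, 0, 0], [1], 4, 6, 3000, 4, [-34, -15443, 15370, -34],
  .node false 4 z z (.leaf [135185, 135186, 131077]) (.node false 6 z z (.node true 7 (.leaf [138264, 138243, 131102]) (.leaf [138264, 137233, 137234, 138251, 131102]) (.node false 5 z z (.leaf [138264, 135193, 136209, 135178, 136202, 138259, 131100, 131077, 131102]) (.leaf [138264, 135193, 136217, 135186, 136202, 138259, 131100, 131077, 131102]) z) z z) (.leaf [137232, 135193, 137241, 135178, 131100, 131077]) z) z⟩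

def c12_9 : Cert := ⟨12, 9, [0, 0, 3, -1, 0], [-3, 0, 0, -3, 0], [1], 6, 8, 3000, 7, [11045, 2, 11041, 2],
  .node false 6 z z (.node false 5 z z (.node false 4 z z (.leaf [136216, 135185, 136209, 137233, 135170, 137242, 131077]) (.leaf [135193, 137233, 135194, 137218, 131077]) z) (.node true 8 (.leaf [139280, 139267, 131094]) z z (.leaf [139280, 136217, 136218, 139291, 131094]) z) z) (.leaf [137241, 137242, 131077]) z⟩

def c12_10 : Cert := ⟨12, 10, [0, 0, -4, -27, 0], [0, 21, 0, -21, 0], [1], 4, 6, 3000, 5, [11260, -650, 10635, -627],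
  .node false 4 z z (.node true 6 z (.node false 5 z z (.leaf [137232, 135185, 136209, 135178, 136202, 137227, 131092, 131077, 131094]) (.leaf [137232, 136217, 136202, 137227, 131092, 131094]) z) z (.leaf [137232, 135185, 135178, 137243, 131092, 131094]) z) (.leaf [135193, 135194, 131077]) z⟩

def c12_11 : Cert := ⟨12, 11, [0, 0, 9, 4, 0], [3, 7, 0, -7, 0], [1], 4, 6, 3000, 5, [90092, -66755, 31917, 17249],
  .node false 4 z z (.node true 6 (.leaf [137232, 137219, 131094]) (.node false 5 z z (.leaf [137232, 135185, 136209, 135178, 136202, 137227, 131092, 131077, 131094]) (.leaf [137232, 136217, 136202, 137227, 131092, 131094]) z) z (.leaf [137232, 135185, 135178, 137243, 131092, 131094]) z) (.leaf [135193, 135194, 131077]) z⟩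

def c12_20 : Cert := ⟨12, 20, [0, 0, -28, 18, 0], [0, 0, 7, 0, 26], [1], 5, 7, 3000, 9, [93215, -23724, 54114, 52588],
  .node false 5 z z (.leaf [136209, 136210, 131077]) (.node false 4 z z (.node true 8 z z (.node false 6 z z (.leaf [139288, 137233, 137234, 139283, 131102]) (.leaf [139288, 136217, 137241, 136210, 137250, 139283, 131077, 131102]) z) z (.leaf [139288, 135185, 135186, 139299, 131102])) (.leaf [135184, 135193, 136217, 136226, 131077]) z) z⟩

def c12_21 : Cert := ⟨12, 21, [0, 0, -18, 11, 0], [0, 0, -21, 0, -25], [1], 5, 7, 3000, 5, [-22663, 5207, -52002, -49318],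
  .node false 5 z z (.leaf [136209, 136210, 131077]) (.node true 8 (.leaf [139288, 139267, 131102]) z (.node false 6 z z (.leaf [136217, 137233, 136194, 137250, 139298, 139283, 131077]) (.leaf [139288, 136217, 137241, 136210, 137250, 139283, 131077, 131102]) z) z (.node false 4 z z (.leaf [139288, 135185, 135186, 139299, 131102]) (.leaf [139288, 135193, 136217, 135186, 136226, 139299, 131077, 131102]) z)) z⟩

def c13_1 : Cert := ⟨13, 1, [-3, 0, 0, 4, 0], [1, 0, 0, 0, 0], [1, 1], 4, 6, 3000, 5, [17362, 17367, 17363, 17359],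
  .leaf [137240, 138264, 140312, 141336, 137219, 138243, 140291, 141315, 131126]⟩

def c13_2 : Cert := ⟨13, 2, [22, 0, -1, -24, 0], [0, -9, 0, 0, 0], [1], 4, 6, 3000, 5, [498557, -16418, 482131, -16395],
  .node false 5 (.leaf [137232, 136193, 136202, 137227, 131077, 131094]) z (.node false 4 (.leaf [137232, 135169, 136209, 135178, 136202, 137227, 262149, 131094]) z (.leaf [137232, 135185, 136209, 135178, 136202, 137227, 131092, 131077, 131094]) (.leaf [137232, 135193, 136209, 135178, 136202, 137227, 131100, 131077, 131094]) z) (.leaf [137232, 136217, 136202, 137227, 131092, 131094]) z⟩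

def c13_3 : Cert := ⟨13, 3, [-6, 0, 8, -9, 0], [-3, 3, 0, 0, 0], [1], 4, 6, 3000, 4, [-23, 10973, -23, 10962],
  .node false 4 (.leaf [135169, 135170, 131077]) z (.node true 6 (.leaf [137232, 137219, 131094]) (.node false 5 (.leaf [137232, 136193, 136202, 137227, 131077, 131094]) z (.leaf [137232, 135185, 136209, 135178, 136202, 137227, 131092, 131077, 131094]) (.leaf [137232, 136217, 136202, 137227, 131092, 131094]) z) z z z) (.leaf [135193, 135170, 131100]) z⟩

def c13_11 : Cert := ⟨13, 11, [1, 0, -1, -7, 0], [-8, 6, 0, -2, 0], [1], 4, 6, 3000, 5, [14813, -20, 14806, -20],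
  .node false 4 (.leaf [135169, 135170, 131077]) z (.node true 6 (.leaf [137232, 137219, 131094]) (.node false 5 (.leaf [137232, 136193, 136202, 137227, 131077, 131094]) z (.leaf [136216, 135185, 136209, 135178, 131077]) (.leaf [137232, 136217, 136202, 137227, 131092, 131094]) z) z (.leaf [137232, 135185, 135178, 137243, 131092, 131094]) z) (.leaf [135193, 135194, 131077]) z⟩

def c14_1 : Cert := ⟨14, 1, [0, -2, 2, 4, 0], [-1, 0, 0, 0, 0], [1], 4, 6, 3000, 4, [10602, 10600, 10599, 10597],
  .leaf [138264, 141336, 138243, 141315, 131126]⟩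

def c14_2 : Cert := ⟨14, 2, [0, -28, 0, -30, 0], [0, -17, 0, 0, 0], [1], 4, 6, 3000, 4, [-11, 25639, -11, 25611],
  .node false 5 z (.leaf [137232, 136201, 136202, 137227, 131094]) (.node false 4 z (.leaf [135177, 135178, 131077]) (.leaf [137232, 135185, 136209, 135178, 136202, 137227, 131092, 131077, 131094]) (.leaf [137232, 135193, 136209, 135178, 136202, 137227, 131100, 131077, 131094]) z) (.leaf [137232, 136217, 136202, 137227, 131092, 131094]) z⟩

def c14_3 : Cert := ⟨14, 3, [0, 5, 11, 2, 0], [8, -11, 0, 0, 0], [1], 4, 6, 3000, 4, [16, 7625, 16, 7622],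
  .node false 4 z (.leaf [135177, 135178, 131077]) (.node false 5 z (.node true 6 (.leaf [137232, 137219, 131094]) (.leaf [137232, 136201, 136202, 137227, 131094]) z z z) (.leaf [136200, 135185, 136209, 135178, 131092, 131077]) (.leaf [136200, 136217, 131092]) z) (.leaf [135193, 135170, 131100]) z⟩

def c14_10 : Cert := ⟨14, 10, [0, -5, 26, -20, 0], [0, 17, 0, 8, 0], [1], 4, 6, 3000, 4, [-22, 21677, -22, 21646],
  .node false 4 z (.leaf [135177, 135178, 131077]) (.node true 6 z (.node false 5 z (.leaf [137232, 136201, 136202, 137227, 131094]) (.leaf [136209, 136202, 137242, 137227, 131077]) (.leaf [137232, 136217, 136202, 137227, 131092, 131094]) z) z (.leaf [137232, 135185, 135178, 137243, 131092, 131094]) z) (.leaf [135193, 135194, 131077]) z⟩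

def c14_11 : Cert := ⟨14, 11, [0, 17, 30, -27, 0], [-18, 9, 0, -30, 0], [1], 4, 6, 3000, 4, [8, 516239, 8, 516226],
  .node false 4 z (.leaf [135177, 135178, 131077]) (.node false 5 z (.node true 6 (.leaf [137232, 137219, 131094]) (.leaf [137232, 136201, 136202, 137227, 131094]) z (.leaf [137232, 135185, 135178, 137243, 131092, 131094]) z) (.leaf [136200, 135185, 136209, 135178, 131092, 131077]) (.leaf [136200, 136217, 131092]) z) (.leaf [135193, 135194, 131077]) z⟩

def c15_1 : Cert := ⟨15, 1, [0, -1, 1, 0, 0], [-1, 0, 0, 0, 0], [1, 0, 1], 4, 6, 3000, 4, [18087, 18085, 18085, 18083],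
  .leaf [135184, 268304, 270352, 141328, 135171, 268291, 270339, 141315, 131126]⟩

def c15_3 : Cert := ⟨15, 3, [-22, 3, 27, -11, 0], [5, 0, 0, 0, 0], [1], 4, 6, 3000, 5, [19250, 3, 19228, 3],
  .node false 4 (.leaf [135169, 135170, 131077]) (.leaf [135177, 135178, 131077]) (.node false 5 (.leaf [136200, 136193, 131077]) (.node true 6 (.leaf [137232, 137219, 131094]) (.leaf [137232, 136201, 136202, 137227, 131094]) z z z) (.leaf [136200, 135185, 136209, 135178, 131092, 131077]) (.leaf [136200, 136217, 131092]) z) (.leaf [135193, 135170, 131100]) z⟩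

def c16_1 : Cert := ⟨16, 1, [0, 0, 0, 0, 0], [-3, 0, 0, 0, 0], [1], 4, 6, 3000, 4, [-16140, -8621, -19674, 13688],
  .leaf [139296, 139267, 131110]⟩

def c16_4 : Cert := ⟨16, 4, [0, 0, 0, 0, 0], [0, 0, 0, 0, 0], [1, 1], 5, 7, 3000, 7, [23296887, 10968921, -14398268, -6779166],
  .leaf [139296, 140320, 135201, 136225, 137249, 138273, 135186, 136210, 137234, 138258, 139283, 140307, 131108, 131077, 131110]⟩

def c16_5 : Cert := ⟨16, 5, [0, 0, 0, 0, 28], [-8, 0, -16, 0, 0], [1], 4, 6, 3000, 6, [-39063, 13697, 2753, -194294],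
  .node true 8 (.leaf [139296, 139267, 131110]) z (.leaf [139296, 135201, 137249, 135186, 137234, 139283, 131108, 131077, 131110]) z z⟩

def c16_6 : Cert := ⟨16, 6, [0, 0, 0, 0, -3], [0, 8, 1, 0, 0], [1], 5, 7, 3000, 8, [-31594006, -16399825, 18271294, -15511573],
  .node true 9 z (.node true 12 z (.leaf [140320, 143392, 136225, 138273, 142369, 136210, 138258, 142354, 140299, 143371, 131108, 131077, 131134]) (.leaf [140320, 143392, 137249, 141345, 137226, 141322, 140299, 143379, 131100, 131134]) z z) (.leaf [140320, 136225, 138273, 136210, 138258, 140307, 131108, 131077, 131110]) z z⟩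

def c16_8 : Cert := ⟨16, 8, [0, 0, 0, 0, 4], [0, 0, 0, -4, 0], [1], 6, 12, 3000, 7, [604690, -495685, 405962, -332272],
  .leaf [927776, 535584, 143392, 539680, 671776, 398369, 399393, 400417, 401441, 795681, 668705, 398362, 399386, 400410, 401434, 795674, 668698, 927771, 535579, 143387, 539675, 671771, 393260, 262149, 262182, 524366, 655446]⟩

def c16_10 : Cert := ⟨16, 10, [0, 0, 0, 0, -4], [0, 4, 0, -1, 0], [1, 0, 1], 4, 6, 3000, 4, [-2805906, 1734136, -1674978, 1035184],
  .node true 6 z (.leaf [268320, 266273, 267297, 266266, 136202, 136218, 268299, 262164, 131077, 262166]) z (.leaf [137248, 135201, 135178, 137243, 131092, 131094]) z⟩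

def c16_11 : Cert := ⟨16, 11, [0, 0, 0, 0, 23], [16, 19, 0, -20, 0], [1, 0, 1], 4, 6, 3000, 4, [-80381, 63680, -19522, -38729],
  .node true 6 (.leaf [137248, 137219, 131094]) (.leaf [268320, 266273, 267297, 266266, 136202, 136218, 268299, 262164, 131077, 262166]) z (.leaf [137248, 135201, 135178, 137243, 131092, 131094]) z⟩

def c16_14 : Cert := ⟨16, 14, [0, 0, 0, 0, 0], [0, 0, 0, 0, 0], [1], 4, 6, 3000, 7, [16367150, -10115463, -10115472, -10115455],
  .node true 8 z (.leaf [139296, 135201, 138273, 135178, 138266, 139275, 131108, 131077, 131110]) (.leaf [139296, 135201, 137249, 135186, 137234, 139283, 131108, 131077, 131110]) (.leaf [139296, 135201, 136225, 135194, 136202, 139291, 131108, 131077, 131110]) z⟩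

def c16_15 : Cert := ⟨16, 15, [0, 0, 0, 0, 4], [-2, 4, -3, 4, 0], [1], 4, 6, 3000, 6, [-181741, 12141, -173120, -189444],
  .node true 8 (.leaf [139296, 139267, 131110]) (.leaf [139296, 135201, 138273, 135178, 138266, 139275, 131108, 131077, 131110]) (.leaf [139296, 135201, 137249, 135186, 137234, 139283, 131108, 131077, 131110]) (.leaf [139296, 135201, 136225, 135194, 136202, 139291, 131108, 131077, 131110]) z⟩

def c17_1 : Cert := ⟨17, 1, [1, 0, 0, 0, 1], [-1, 0, 0, 0, 0], [3, 2], 4, 6, 3000, 6, [647, 4794, 5424, 2344],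
  .leaf [269344, 401440, 269315, 401411, 131110]⟩

def c17_4 : Cert := ⟨17, 4, [-1, 0, 0, 0, 1], [0, 0, 1, 0, 0], [1, 0, 2], 4, 6, 3000, 4, [-45502, 350226, 45500, -175114],
  .node false 4 (.leaf [137248, 139264, 397313, 397330, 137235, 139283, 131077, 131110]) z z z (.leaf [137248, 139264, 790561, 790546, 137235, 139283, 393236, 131077, 131110])⟩

def c17_5 : Cert := ⟨17, 5, [-2, 0, 0, 0, -1], [-4, 0, 4, 0, 0], [1], 4, 6, 3000, 5, [-76883, -13274, 48061, 27463],
  .node false 4 (.leaf [135169, 135170, 131077]) z z z (.node false 6 (.node true 8 (.leaf [139296, 139267, 131110]) z (.leaf [139296, 137217, 137234, 139283, 131077, 131110]) z z) z z z (.leaf [137216, 135201, 137249, 135186, 131108]))⟩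

def c17_11 : Cert := ⟨17, 11, [-3, 0, 0, 0, 10], [-15, 29, 0, 26, 0], [1], 4, 6, 3000, 6, [-12800, 12768, -12772, 362],
  .node false 4 (.leaf [135169, 135170, 131077]) z z z (.node false 5 (.node false 7 (.node true 8 (.leaf [139296, 139267, 131110]) (.leaf [139296, 138241, 138266, 139275, 131077, 131110]) z (.leaf [139296, 136193, 136202, 139291, 131077, 131110]) z) z z z (.leaf [138240, 135201, 138273, 135178, 131108])) z z z (.leaf [136192, 135201, 136225, 135194, 131108]))⟩

def c18_1 : Cert := ⟨18, 1, [0, 0, 0, 0, 0], [-1, 0, 0, 0, 0], [1], 4, 6, 3000, 4, [5778, 5777, 5776, 5775],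
  .leaf [136200, 137224, 138248, 139272, 140296, 141320, 136195, 137219, 138243, 139267, 140291, 141315, 131126]⟩

def c18_4 : Cert := ⟨18, 4, [0, -10, 0, 0, 6], [0, 0, -5, 0, 0], [1, 0, 2], 4, 6, 3000, 7, [2673983, 15230984, 12556996, -2673993],
  .node false 4 z (.leaf [137248, 138272, 139272, 397321, 397330, 137235, 138259, 139283, 131086, 131110]) z z (.leaf [399392, 269320, 139272, 2363425, 2363410, 399379, 269331, 139283, 1179668, 524293, 131102, 131110])⟩

def c18_5 : Cert := ⟨18, 5, [0, -4, 0, 0, 3], [0, 0, 0, 0, 0], [1], 4, 6, 3000, 7, [6170, -6175, -8, 6163],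
  .node false 4 z (.leaf [135177, 135170, 131084]) z z (.node true 8 (.leaf [139296, 139267, 131110]) z (.node false 6 z (.leaf [139296, 137225, 137234, 139283, 131086, 131110]) z z (.leaf [139296, 135201, 137249, 135186, 137234, 139283, 131108, 131077, 131110])) z z)⟩

def c18_10 : Cert := ⟨18, 10, [0, 2, 0, 0, 8], [0, -4, 0, -2, 0], [1], 4, 6, 3000, 6, [6, 6124, -6038, 78],
  .node false 4 z (.leaf [135177, 135178, 131077]) z z (.node false 5 z (.node true 8 z (.node false 7 z (.leaf [139296, 138249, 138266, 139275, 131094, 131110]) z z (.leaf [139296, 135201, 138273, 135178, 138266, 139275, 131108, 131077, 131110])) z (.leaf [139296, 136201, 136202, 139291, 131110]) z) z z (.leaf [136200, 135201, 136225, 135194, 131108, 131077]))⟩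

def c18_11 : Cert := ⟨18, 11, [0, -7, 0, 0, 7], [-3, 1, 0, -9, 0], [1], 4, 6, 3000, 7, [99177, -23026, 63118, 14235],
  .node false 4 z (.leaf [135177, 135178, 131077]) z z (.node false 5 z (.node true 8 (.leaf [139296, 139267, 131110]) (.node false 7 z (.leaf [139296, 138249, 138250, 139275, 131110]) z z (.leaf [139296, 135201, 138273, 135178, 138266, 139275, 131108, 131077, 131110])) z (.leaf [139296, 136201, 136202, 139291, 131110]) z) z z (.leaf [136200, 135201, 136225, 135194, 131108, 131077]))⟩

def c19_1 : Cert := ⟨19, 1, [-1, 0, 0, 0, 1], [0, 0, 0, 0, 0], [1, 0, 1], 4, 6, 3000, 4, [19692, 19691, 19691, 19691],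
  .leaf [137248, 139296, 141344, 137219, 139267, 141315, 131126]⟩

def c19_4 : Cert := ⟨19, 4, [27, 22, 0, 0, 26], [0, 0, 19, 0, 0], [1, 0, 2], 4, 6, 3000, 4, [23691043, 14325576, -9365464, -1653363],
  .node false 4 (.leaf [399392, 269320, 139272, 1183745, 1183762, 399379, 269331, 139283, 524293, 131102, 131110]) (.leaf [137248, 138272, 139272, 397321, 397330, 137235, 138259, 139283, 131086, 131110]) z z (.leaf [399392, 269320, 139272, 2363425, 2363410, 399379, 269331, 139283, 1179668, 524293, 131102, 131110])⟩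

def c19_5 : Cert := ⟨19, 5, [29, -26, 0, 0, 20], [-21, 0, -21, 0, 0], [1], 4, 6, 3000, 7, [8290, -8194, -10, 8244],
  .node false 4 (.leaf [135169, 135170, 131077]) (.leaf [135177, 135170, 131084]) z z (.node true 8 (.leaf [139296, 139267, 131110]) z (.node false 6 (.leaf [139296, 137217, 137234, 139283, 131077, 131110]) (.leaf [139296, 137225, 137234, 139283, 131086, 131110]) z z (.leaf [139296, 135201, 137249, 135186, 137234, 139283, 131108, 131077, 131110])) z z)⟩

def c20_1 : Cert := ⟨20, 1, [0, 0, 1, 0, -9], [-4, 0, 0, 0, 0], [1, 0, 1], 4, 6, 3000, 4, [4497, 16635, 4492, 16630],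
  .leaf [135184, 268304, 270352, 141328, 135171, 268291, 270339, 141315, 131126]⟩

def c20_2 : Cert := ⟨20, 2, [0, 0, 0, 0, -3], [0, 4, 0, 0, 0], [1], 4, 6, 3000, 5, [56533537, -31373754, 25159787, -13962636],
  .node false 5 z z (.node false 4 z z (.leaf [137232, 135185, 136209, 135178, 136202, 137227, 131092, 131077, 131094]) z (.leaf [137232, 135201, 136209, 135178, 136202, 137227, 131108, 131077, 131094])) z (.leaf [137232, 136225, 136202, 137227, 131100, 131094])⟩

def c20_3 : Cert := ⟨20, 3, [0, 0, 3, 0, -3], [0, 0, 0, 0, 0], [1], 4, 6, 3000, 4, [-137051, 8830, -128266, 8827],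
  .node false 4 z z (.node true 6 (.leaf [137232, 137219, 131094]) (.node false 5 z z (.leaf [137232, 135185, 136209, 135178, 136202, 137227, 131092, 131077, 131094]) z (.leaf [137232, 136225, 136202, 137227, 131100, 131094])) z z z) z (.leaf [135201, 135170, 131108])⟩

def c20_4 : Cert := ⟨20, 4, [0, 0, -27, 0, 3], [0, 0, 19, 0, 0], [1, 0, 2], 4, 6, 3000, 6, [-46, -46, 24021, 22070],
  .node false 4 z z (.leaf [268320, 139280, 397329, 397330, 268307, 139283, 131110]) z (.leaf [268320, 139280, 1576993, 1576978, 268307, 139283, 786452, 393221, 131110])⟩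

def c20_5 : Cert := ⟨20, 5, [0, 0, -3, 0, 7], [-3, 0, -9, 0, 0], [1], 4, 6, 3000, 5, [6, -7623, 11260, -7623],
  .node false 4 z z (.leaf [135185, 135186, 131077]) z (.node false 6 z z (.node true 8 (.leaf [139296, 139267, 131110]) z (.leaf [139296, 137233, 137234, 139283, 131110]) z z) z (.leaf [137232, 135201, 137249, 135186, 131108, 131077]))⟩

def c20_9 : Cert := ⟨20, 9, [0, 0, -5, 0, -28], [-13, 0, 0, 1, 0], [1], 6, 8, 3000, 6, [-228246, 15075, -213285, 15067],
  .node false 6 z z (.node false 4 z z (.node true 8 (.leaf [139280, 139267, 131094]) z z (.node false 5 z z (.leaf [139280, 135185, 136209, 137233, 135170, 136218, 137242, 139291, 131077, 131094]) z (.leaf [139280, 135185, 136225, 137233, 135194, 136218, 137218, 139291, 131077, 131094])) z) z (.leaf [135201, 137233, 135170, 137218, 131124])) z (.leaf [137249, 137218, 131108])⟩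

def c20_11 : Cert := ⟨20, 11, [0, 0, 10, 0, -6], [2, 7, 0, 3, 0], [1], 4, 6, 3000, 4, [-185013, 12738, -184885, 12730],
  .node false 4 z z (.node true 6 (.leaf [137232, 137219, 131094]) (.node false 5 z z (.leaf [137232, 135185, 136209, 135178, 136202, 137227, 131092, 131077, 131094]) z (.leaf [137232, 135185, 136225, 135194, 136202, 137227, 131092, 131077, 131094])) z (.leaf [137232, 135185, 135178, 137243, 131092, 131094]) z) z (.leaf [135201, 135170, 131108])⟩

def c21_1 : Cert := ⟨21, 1, [1, 0, 1, 0, -1], [0, 0, 0, 0, 0], [1, 0, 1], 4, 6, 3000, 4, [11424, 14714, 11423, 14713],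
  .leaf [135184, 268304, 270352, 141328, 135171, 268291, 270339, 141315, 131126]⟩

def c21_2 : Cert := ⟨21, 2, [11, 0, -20, 0, -23], [0, -27, 0, 0, 0], [1], 4, 6, 3000, 4, [-11754489, 11754527, -5877241, 5877279],
  .node false 5 (.leaf [137232, 136193, 136202, 137227, 131077, 131094]) z (.node false 4 (.leaf [137232, 135169, 136209, 135178, 136202, 137227, 262149, 131094]) z (.leaf [137232, 135185, 136209, 135178, 136202, 137227, 131092, 131077, 131094]) z (.leaf [137232, 135201, 136209, 135178, 136202, 137227, 131108, 131077, 131094])) z (.leaf [137232, 136225, 136202, 137227, 131100, 131094])⟩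

def c21_3 : Cert := ⟨21, 3, [23, 0, 25, 0, -28], [-1, -13, 0, 0, 0], [1], 4, 6, 3000, 4, [-19145, 19181, -19119, 19155],
  .node false 4 (.leaf [135169, 135170, 131077]) z (.node true 6 (.leaf [137232, 137219, 131094]) (.node false 5 (.leaf [137232, 136193, 136202, 137227, 131077, 131094]) z (.leaf [137232, 135185, 136209, 135178, 136202, 137227, 131092, 131077, 131094]) z (.leaf [137232, 136225, 136202, 137227, 131100, 131094])) z z z) z (.leaf [135201, 135170, 131108])⟩

def c21_4 : Cert := ⟨21, 4, [6, 0, -5, 0, 0], [0, 0, 5, 0, 0], [1, 0, 2], 4, 6, 3000, 4, [9606, 19646, -10, -10],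
  .node false 4 (.leaf [268320, 139280, 790529, 790546, 268307, 139283, 393221, 131110]) z (.leaf [268320, 139280, 397329, 397330, 268307, 139283, 131110]) z (.leaf [268320, 139280, 1576993, 1576978, 268307, 139283, 786452, 393221, 131110])⟩

def c21_5 : Cert := ⟨21, 5, [24, 0, -19, 0, 11], [-15, 0, -30, 0, 0], [1], 4, 6, 3000, 4, [3482, 11, 11, 13537],
  .node false 4 (.leaf [135169, 135170, 131077]) z (.leaf [135185, 135186, 131077]) z (.node false 6 (.leaf [137232, 137217, 131077]) z (.node true 8 (.leaf [139296, 139267, 131110]) z (.leaf [139296, 137233, 137234, 139283, 131110]) z z) z (.leaf [137232, 135201, 137249, 135186, 131108, 131077]))⟩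

def c21_11 : Cert := ⟨21, 11, [-28, 0, -15, 0, -29], [-25, 9, 0, 3, 0], [1], 4, 6, 3000, 4, [-9447, 95035, -77162, -99948],
  .node false 4 (.leaf [135169, 135170, 131077]) z (.node false 5 (.node true 6 (.leaf [137232, 137219, 131094]) (.leaf [137232, 136193, 136202, 137227, 131077, 131094]) z (.leaf [137232, 135185, 135178, 137243, 131092, 131094]) z) z (.leaf [136192, 135185, 136209, 135178, 131092]) z (.leaf [136192, 135185, 136225, 135194, 131092])) z (.leaf [135201, 135170, 131108])⟩

def c22_1 : Cert := ⟨22, 1, [0, 0, -4, 0, 4], [-3, 0, 0, 0, 0], [1, 1], 4, 6, 3000, 4, [20085, 20082, 20079, 20076],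
  .leaf [135176, 270368, 271368, 141320, 135171, 270339, 271363, 141315, 131126]⟩

def c22_2 : Cert := ⟨22, 2, [0, -23, 4, 0, -5], [0, 17, 0, 0, 0], [2, 3], 6, 8, 3000, 6, [16106, -40, 16079, -40],
  .node false 6 z (.leaf [400400, 270344, 661513, 661514, 400395, 270347, 131094]) (.leaf [19669008, 7874576, 3158032, 2110472, 442374161, 442374154, 19669003, 7874571, 3158027, 2110475, 147456012, 81920005, 9830414, 3932190, 1572910, 1048638]) z (.leaf [11800592, 2759696, 1843208, 29497377, 29497354, 11800587, 2759691, 1843211, 3932172, 5898268, 2621445, 917526])⟩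

def c22_3 : Cert := ⟨22, 3, [0, 14, 29, 0, -7], [-3, -12, 0, 0, 0], [1], 4, 6, 3000, 5, [8090, 26, 8075, 26],
  .node false 4 z (.leaf [135177, 135178, 131077]) (.node false 5 z (.node true 6 (.leaf [137232, 137219, 131094]) (.leaf [137232, 136201, 136202, 137227, 131094]) z z z) (.leaf [136200, 135185, 136209, 135178, 131092, 131077]) z (.leaf [136200, 136225, 131100])) z (.leaf [135201, 135170, 131108])⟩

def c22_4 : Cert := ⟨22, 4, [0, 0, -1, 0, 9], [0, 0, 2, 0, 0], [1], 4, 6, 3000, 5, [-3, 4093, 18856, 14761],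
  .node false 6 z (.leaf [139296, 137225, 137234, 139283, 131086, 131110]) (.leaf [139296, 137233, 137234, 139283, 131110]) z (.node false 4 z (.leaf [139296, 135177, 137249, 135186, 137234, 139283, 131084, 131077, 131110]) (.leaf [135185, 135186, 131077]) z (.leaf [139296, 135201, 137249, 135186, 137234, 139283, 131108, 131077, 131110]))⟩

def c22_5 : Cert := ⟨22, 5, [0, -29, 15, 0, 20], [-5, 0, 10, 0, 0], [1], 4, 6, 3000, 7, [936885, 5, 5, 936836],
  .node false 4 z (.leaf [135177, 135170, 131084]) (.leaf [135185, 135186, 131077]) z (.node false 6 z (.leaf [137232, 137225, 131086]) (.node true 8 (.leaf [139296, 139267, 131110]) z (.leaf [139296, 137233, 137234, 139283, 131110]) z z) z (.leaf [137232, 135201, 137249, 135186, 131108, 131077]))⟩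

def c23_1 : Cert := ⟨23, 1, [0, -1, 1, 0, 0], [-1, 0, 0, 0, 0], [1], 4, 6, 3000, 4, [18826, 18826, 18824, 18824],
  .leaf [137232, 139280, 141328, 137219, 139267, 141315, 131126]⟩

def c23_2 : Cert := ⟨23, 2, [-8, -9, 1, 0, -28], [0, 28, 0, 0, 0], [1, 3], 6, 8, 3000, 6, [17235, -37, 17225, -37],
  .node false 6 (.leaf [400400, 139272, 792577, 792586, 400395, 139275, 262149, 131094]) (.leaf [400400, 139272, 530441, 530442, 400395, 139275, 131094]) (.leaf [1973264, 663560, 4724753, 4724746, 1973259, 663563, 1572876, 524293, 655382]) z (.leaf [4722704, 9051152, 3022856, 18880545, 18880522, 4722699, 9051147, 3022859, 1572876, 4718620, 524293, 3014678])⟩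

def c23_3 : Cert := ⟨23, 3, [-6, -1, 26, 0, -26], [19, -28, 0, 0, 0], [1], 4, 6, 3000, 4, [27, 7531, 27, 7524],
  .node false 4 (.leaf [135169, 135170, 131077]) (.leaf [135177, 135178, 131077]) (.node false 5 (.leaf [136200, 136193, 131077]) (.node true 6 (.leaf [137232, 137219, 131094]) (.leaf [137232, 136201, 136202, 137227, 131094]) z z z) (.leaf [136200, 135185, 136209, 135178, 131092, 131077]) z (.leaf [136200, 136225, 131100])) z (.leaf [135201, 135170, 131108])⟩

def c23_4 : Cert := ⟨23, 4, [-8, -2, -5, 0, 2], [0, 0, -7, 0, 0], [1, 0, 2], 4, 6, 3000, 4, [5983, 2914, 2, 1538],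
  .node false 4 (.leaf [268320, 139280, 790529, 790546, 268307, 139283, 393221, 131110]) (.leaf [137248, 138272, 139272, 397321, 397330, 137235, 138259, 139283, 131086, 131110]) (.leaf [268320, 139280, 397329, 397330, 268307, 139283, 131110]) z (.leaf [268320, 139280, 1576993, 1576978, 268307, 139283, 786452, 393221, 131110])⟩

def c24_1 : Cert := ⟨24, 1, [0, 0, 0, 0, 1], [-1, 0, 0, 0, 0], [1, 0, 1], 4, 6, 3000, 4, [17498, 17497, 17496, 17495],
  .leaf [137248, 139296, 141344, 137219, 139267, 141315, 131126]⟩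

def c24_4 : Cert := ⟨24, 4, [0, 0, 0, -1, 3], [0, 0, 0, 0, 0], [1, 0, 2], 4, 6, 3000, 5, [498539, 216703, -230967, 50865],
  .node false 4 z z z (.leaf [136224, 137248, 139288, 397337, 397330, 136211, 137235, 139283, 131084, 131110]) (.leaf [136216, 399392, 138272, 270360, 140312, 2625569, 2625554, 136211, 399379, 138259, 270355, 140307, 1310740, 524293, 262182, 131118])⟩

def c24_5 : Cert := ⟨24, 5, [0, 0, 0, -4, 3], [-2, 0, -1, 0, 0], [1], 4, 6, 3000, 4, [19021, -10, -19029, 19023],
  .node false 4 z z z (.leaf [135193, 135170, 131100]) (.node true 8 (.leaf [139296, 139267, 131110]) z (.node false 6 z z z (.leaf [139296, 137241, 137234, 139283, 131084, 131110]) (.leaf [139296, 135201, 137249, 135186, 137234, 139283, 131108, 131077, 131110])) z z)⟩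

def c24_10 : Cert := ⟨24, 10, [0, 0, 0, 0, 4], [0, -4, 0, -3, 0], [1], 4, 6, 3000, 7, [16810, 3, 59, -16746],
  .node false 4 z z z (.leaf [135193, 135194, 131077]) (.node false 7 z z z (.node true 8 z (.leaf [139296, 138265, 138266, 139275, 131110]) z (.node false 5 z z z (.leaf [139296, 136217, 136218, 139291, 131110]) (.leaf [139296, 135201, 136225, 135194, 136202, 139291, 131108, 131077, 131110])) z) (.leaf [138264, 135201, 138273, 135178, 131108, 131077]))⟩

def c24_11 : Cert := ⟨24, 11, [0, 0, 0, -25, 30], [-12, 3, 0, 8, 0], [1], 4, 6, 3000, 5, [6351, -11305, 17586, -33],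
  .node false 4 z z z (.leaf [135193, 135194, 131077]) (.node true 8 (.leaf [139296, 139267, 131110]) (.node false 7 z z z (.leaf [139296, 138265, 138266, 139275, 131110]) (.leaf [139296, 135201, 138273, 135178, 138266, 139275, 131108, 131077, 131110])) z (.node false 5 z z z (.leaf [139296, 136217, 136218, 139291, 131110]) (.leaf [139296, 135201, 136225, 135194, 136202, 139291, 131108, 131077, 131110])) z)⟩

def c24_20 : Cert := ⟨24, 20, [0, 0, 0, 0, -7], [0, 0, 1, 0, 0], [1], 5, 7, 3000, 9, [14372, -68685, 37869, 97690],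
  .node false 5 z z z (.node false 6 z z z (.leaf [137248, 136217, 137241, 136210, 131077]) (.node true 8 z z (.leaf [139288, 137249, 137250, 139283, 131102]) z (.node false 4 z z z (.leaf [139288, 135193, 136217, 135186, 136226, 139299, 131077, 131102]) (.leaf [139288, 135201, 135202, 139299, 131102])))) (.leaf [136225, 136226, 131077])⟩

def c24_21 : Cert := ⟨24, 21, [0, 0, 0, 10, -2], [2, 0, 2, 0, 6], [1], 5, 7, 3000, 7, [-686373, -8, 686361, -686365],
  .node false 5 z z z (.node false 6 z z z (.leaf [137248, 136217, 137241, 136210, 131077]) (.node true 8 (.leaf [139288, 139267, 131102]) z (.leaf [139288, 137249, 137250, 139283, 131102]) z (.node false 4 z z z (.leaf [139288, 135193, 136217, 135186, 136226, 139299, 131077, 131102]) (.leaf [139288, 135201, 135202, 139299, 131102])))) (.leaf [136225, 136226, 131077])⟩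

def c25_1 : Cert := ⟨25, 1, [1, 0, 0, -1, 0], [-1, 0, 0, 0, 0], [1, 2, 1], 4, 6, 3000, 6, [14941, 14943, 14942, 14941],
  .leaf [267288, 137240, 400416, 270368, 271392, 141336, 267267, 137219, 400387, 270339, 271363, 141315, 131110, 131126]⟩

def c25_4 : Cert := ⟨25, 4, [-2, 0, 0, -6, -2], [0, 0, 5, 0, 0], [1, 0, 2], 4, 6, 3000, 4, [-156045, 132939, 156038, -36618],
  .node false 4 (.leaf [136216, 399392, 138272, 270360, 140312, 1314817, 1314834, 136211, 399379, 138259, 270355, 140307, 524293, 262182, 131118]) z z (.leaf [136224, 137248, 139288, 397337, 397330, 136211, 137235, 139283, 131084, 131110]) (.leaf [136216, 399392, 138272, 270360, 140312, 2625569, 2625554, 136211, 399379, 138259, 270355, 140307, 1310740, 524293, 262182, 131118])⟩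

def c25_5 : Cert := ⟨25, 5, [1, 0, 0, -2, 3], [0, 0, 4, 0, 0], [1], 4, 6, 3000, 6, [-17950, 17952, 17947, -11],
  .node false 4 (.leaf [135169, 135170, 131077]) z z (.leaf [135193, 135170, 131100]) (.node true 8 (.leaf [139296, 139267, 131110]) z (.node false 6 (.leaf [139296, 137217, 137234, 139283, 131077, 131110]) z z (.leaf [139296, 137241, 137234, 139283, 131084, 131110]) (.leaf [139296, 135201, 137249, 135186, 137234, 139283, 131108, 131077, 131110])) z z)⟩

def c26_1 : Cert := ⟨26, 1, [0, 1, 0, -1, 1], [0, 0, 0, 0, 0], [1], 4, 6, 3000, 4, [16920, 16919, 16918, 16917],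
  .leaf [136200, 137224, 138248, 139272, 140296, 141320, 136195, 137219, 138243, 139267, 140291, 141315, 131126]⟩

def c26_4 : Cert := ⟨26, 4, [0, -12, 0, -23, -9], [0, 0, -3, 0, 0], [1, 0, 2], 4, 6, 3000, 7, [-4300, 70120, 74411, 4282],
  .node false 4 z (.leaf [137248, 138272, 139272, 397321, 397330, 137235, 138259, 139283, 131086, 131110]) z (.leaf [136224, 137248, 138248, 397337, 397330, 136211, 137235, 138259, 131084, 131102]) (.leaf [399392, 269320, 139272, 2363425, 2363410, 399379, 269331, 139283, 1179668, 524293, 131102, 131110])⟩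

def c26_5 : Cert := ⟨26, 5, [0, -29, 0, -21, 15], [-18, 0, -10, 0, 0], [1], 4, 6, 3000, 6, [9121, 9710, 570, -600],
  .node false 4 z (.leaf [135177, 135170, 131084]) z (.leaf [135193, 135170, 131100]) (.node true 8 (.leaf [139296, 139267, 131110]) z (.node false 6 z (.leaf [139296, 137225, 137234, 139283, 131086, 131110]) z (.leaf [139296, 137241, 137234, 139283, 131084, 131110]) (.leaf [139296, 135201, 137249, 135186, 137234, 139283, 131108, 131077, 131110])) z z)⟩

def c28_1 : Cert := ⟨28, 1, [0, 0, -1, 0, -1], [-1, 0, 0, 0, 0], [1], 4, 6, 3000, 4, [-11953, -64813, 57068, -83440],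
  .leaf [138264, 141336, 138243, 141315, 131126]⟩

def c28_3 : Cert := ⟨28, 3, [0, 0, -1, -6, -9], [-4, -2, 0, 0, 0], [1], 4, 6, 3000, 5, [16862, -7, 16859, -7],
  .node false 4 z z (.node true 6 (.leaf [137232, 137219, 131094]) (.node false 5 z z (.leaf [137232, 135185, 136209, 135178, 136202, 137227, 131092, 131077, 131094]) (.leaf [137232, 136217, 136202, 137227, 131092, 131094]) (.leaf [137232, 136225, 136202, 137227, 131100, 131094])) z z z) (.leaf [135193, 135170, 131100]) (.leaf [135201, 135170, 131108])⟩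

def c28_4 : Cert := ⟨28, 4, [0, 0, -28, 2, 25], [0, 0, -6, 0, 0], [1, 0, 2], 4, 6, 3000, 4, [7987, 7971, -15, -22],
  .node false 4 z z (.leaf [268320, 139280, 397329, 397330, 268307, 139283, 131110]) (.leaf [136224, 137248, 139288, 397337, 397330, 136211, 137235, 139283, 131084, 131110]) (.leaf [268320, 139280, 1576993, 1576978, 268307, 139283, 786452, 393221, 131110])⟩

def c28_5 : Cert := ⟨28, 5, [0, 0, 4, -19, 17], [14, 0, 29, 0, 0], [1], 4, 6, 3000, 4, [9837, -25, -25, 9870],
  .node false 4 z z (.leaf [135185, 135186, 131077]) (.leaf [135193, 135170, 131100]) (.node false 6 z z (.node true 8 (.leaf [139296, 139267, 131110]) z (.leaf [139296, 137233, 137234, 139283, 131110]) z z) (.leaf [137232, 137241, 131084]) (.leaf [137232, 135201, 137249, 135186, 131108, 131077]))⟩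

def c29_1 : Cert := ⟨29, 1, [-1, 0, 1, -1, 1], [-1, 0, 0, 0, 0], [1, 0, 1], 4, 6, 3000, 5, [18584, 18580, 18582, 18578],
  .leaf [135184, 268304, 270352, 141328, 135171, 268291, 270339, 141315, 131126]⟩

def c29_5 : Cert := ⟨29, 5, [-21, 0, -5, -21, 22], [19, 0, 23, 0, 0], [1], 4, 6, 3000, 5, [-28, -28, 11943, 11900],
  .node false 4 (.leaf [135169, 135170, 131077]) z (.leaf [135185, 135186, 131077]) (.leaf [135193, 135170, 131100]) (.node false 6 (.leaf [137232, 137217, 131077]) z (.node true 8 (.leaf [139296, 139267, 131110]) z (.leaf [139296, 137233, 137234, 139283, 131110]) z z) (.leaf [137232, 137241, 131084]) (.leaf [137232, 135201, 137249, 135186, 131108, 131077]))⟩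

def c30_1 : Cert := ⟨30, 1, [0, 1, 0, 0, -1], [-1, 0, 0, 0, 0], [1, 0, 1], 4, 6, 3000, 4, [14141, 14139, 14137, 14135],
  .leaf [135184, 267272, 268296, 269320, 270344, 140296, 141320, 135171, 267267, 268291, 269315, 270339, 140291, 141315, 131126]⟩

def c30_3 : Cert := ⟨30, 3, [0, 2, 10, -5, -6], [1, -10, 0, 0, 0], [1], 4, 6, 3000, 4, [12, 11985, 12, 11977],
  .node false 4 z (.leaf [135177, 135178, 131077]) (.node false 5 z (.node true 6 (.leaf [137232, 137219, 131094]) (.leaf [137232, 136201, 136202, 137227, 131094]) z z z) (.leaf [136200, 135185, 136209, 135178, 131092, 131077]) (.leaf [136200, 136217, 131092]) (.leaf [136200, 136225, 131100])) (.leaf [135193, 135170, 131100]) (.leaf [135201, 135170, 131108])⟩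

def c30_4 : Cert := ⟨30, 4, [0, 2, -10, 2, 10], [0, 0, -5, 0, 0], [1, 0, 2], 4, 6, 3000, 5, [18527, -5, 11559, 30079],
  .node false 4 z (.leaf [137248, 138272, 140312, 397321, 397330, 137235, 138259, 140307, 131086, 131118]) (.leaf [268320, 139280, 397329, 397330, 268307, 139283, 131110]) (.leaf [136224, 137248, 139288, 397337, 397330, 136211, 137235, 139283, 131084, 131110]) (.leaf [268320, 139280, 1576993, 1576978, 268307, 139283, 786452, 393221, 131110])⟩

def c31_1 : Cert := ⟨31, 1, [-3, 4, -2, 4, -1], [0, 0, 0, 0, 0], [1], 4, 6, 3000, 4, [20148, 20144, 20140, 20136],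
  .leaf [136200, 137224, 138248, 139272, 140296, 141320, 136195, 137219, 138243, 139267, 140291, 141315, 131126]⟩

theorem c2_8_ok : c2_8.ok = true := by decide +kernel
theorem c2_12_ok : c2_12.ok = true := by decide +kernel
theorem c2_16_ok : c2_16.ok = true := by decide +kernel
theorem c3_1_ok : c3_1.ok = true := by decide +kernel
theorem c4_1_ok : c4_1.ok = true := by decide +kernel
theorem c4_2_ok : c4_2.ok = true := by decide +kernel
theorem c4_3_ok : c4_3.ok = true := by decide +kernel
theorem c4_9_ok : c4_9.ok = true := by decide +kernel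
theorem c4_10_ok : c4_10.ok = true := by decide +kernel
theorem c4_11_ok : c4_11.ok = true := by decide +kernel
theorem c5_1_ok : c5_1.ok = true := by decide +kernel
theorem c5_2_ok : c5_2.ok = true := by decide +kernel
theorem c5_3_ok : c5_3.ok = true := by decide +kernel
theorem c5_9_ok : c5_9.ok = true := by decide +kernel
theorem c5_10_ok : c5_10.ok = true := by decide +kernel
theorem c5_11_ok : c5_11.ok = true := by decide +kernel
theorem c6_1_ok : c6_1.ok = true := by decide +kernel
theorem c6_2_ok : c6_2.ok = true := by decide +kernel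
theorem c6_3_ok : c6_3.ok = true := by decide +kernel
theorem c6_9_ok : c6_9.ok = true := by decide +kernel
theorem c6_10_ok : c6_10.ok = true := by decide +kernel
theorem c6_11_ok : c6_11.ok = true := by decide +kernel
theorem c7_1_ok : c7_1.ok = true := by decide +kernel
theorem c7_2_ok : c7_2.ok = true := by decide +kernel
theorem c7_3_ok : c7_3.ok = true := by decide +kernel
theorem c7_11_ok : c7_11.ok = true := by decide +kernel
theorem c8_1_ok : c8_1.ok = true := by decide +kernel
theorem c8_2_ok : c8_2.ok = true := by decide +kernel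
theorem c8_4_ok : c8_4.ok = true := by decide +kernel
theorem c8_6_ok : c8_6.ok = true := by decide +kernel
theorem c8_7_ok : c8_7.ok = true := by decide +kernel
theorem c8_18_ok : c8_18.ok = true := by decide +kernel
theorem c8_20_ok : c8_20.ok = true := by decide +kernel
theorem c8_21_ok : c8_21.ok = true := by decide +kernel
theorem c8_22_ok : c8_22.ok = true := by decide +kernel
theorem c8_23_ok : c8_23.ok = true := by decide +kernel
theorem c9_4_ok : c9_4.ok = true := by decide +kernel
theorem c9_23_ok : c9_23.ok = true := by decide +kernel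
theorem c10_1_ok : c10_1.ok = true := by decide +kernel
theorem c10_4_ok : c10_4.ok = true := by decide +kernel
theorem c10_6_ok : c10_6.ok = true := by decide +kernel
theorem c10_7_ok : c10_7.ok = true := by decide +kernel
theorem c10_21_ok : c10_21.ok = true := by decide +kernel
theorem c11_1_ok : c11_1.ok = true := by decide +kernel
theorem c12_1_ok : c12_1.ok = true := by decide +kernel
theorem c12_3_ok : c12_3.ok = true := by decide +kernel
theorem c12_6_ok : c12_6.ok = true := by decide +kernel
theorem c12_7_ok : c12_7.ok = true := by decide +kernel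
theorem c12_9_ok : c12_9.ok = true := by decide +kernel
theorem c12_10_ok : c12_10.ok = true := by decide +kernel
theorem c12_11_ok : c12_11.ok = true := by decide +kernel
theorem c12_20_ok : c12_20.ok = true := by decide +kernel
theorem c12_21_ok : c12_21.ok = true := by decide +kernel
theorem c13_1_ok : c13_1.ok = true := by decide +kernel
theorem c13_2_ok : c13_2.ok = true := by decide +kernel
theorem c13_3_ok : c13_3.ok = true := by decide +kernel
theorem c13_11_ok : c13_11.ok = true := by decide +kernel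
theorem c14_1_ok : c14_1.ok = true := by decide +kernel
theorem c14_2_ok : c14_2.ok = true := by decide +kernel
theorem c14_3_ok : c14_3.ok = true := by decide +kernel
theorem c14_10_ok : c14_10.ok = true := by decide +kernel
theorem c14_11_ok : c14_11.ok = true := by decide +kernel
theorem c15_1_ok : c15_1.ok = true := by decide +kernel
theorem c15_3_ok : c15_3.ok = true := by decide +kernel
theorem c16_1_ok : c16_1.ok = true := by decide +kernel
theorem c16_4_ok : c16_4.ok = true := by decide +kernel
theorem c16_5_ok : c16_5.ok = true := by decide +kernel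
theorem c16_6_ok : c16_6.ok = true := by decide +kernel
theorem c16_8_ok : c16_8.ok = true := by decide +kernel
theorem c16_10_ok : c16_10.ok = true := by decide +kernel
theorem c16_11_ok : c16_11.ok = true := by decide +kernel
theorem c16_14_ok : c16_14.ok = true := by decide +kernel
theorem c16_15_ok : c16_15.ok = true := by decide +kernel
theorem c17_1_ok : c17_1.ok = true := by decide +kernel
theorem c17_4_ok : c17_4.ok = true := by decide +kernel
theorem c17_5_ok : c17_5.ok = true := by decide +kernel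
theorem c17_11_ok : c17_11.ok = true := by decide +kernel
theorem c18_1_ok : c18_1.ok = true := by decide +kernel
theorem c18_4_ok : c18_4.ok = true := by decide +kernel
theorem c18_5_ok : c18_5.ok = true := by decide +kernel
theorem c18_10_ok : c18_10.ok = true := by decide +kernel
theorem c18_11_ok : c18_11.ok = true := by decide +kernel
theorem c19_1_ok : c19_1.ok = true := by decide +kernel
theorem c19_4_ok : c19_4.ok = true := by decide +kernel
theorem c19_5_ok : c19_5.ok = true := by decide +kernel
theorem c20_1_ok : c20_1.ok = true := by decide +kernel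
theorem c20_2_ok : c20_2.ok = true := by decide +kernel
theorem c20_3_ok : c20_3.ok = true := by decide +kernel
theorem c20_4_ok : c20_4.ok = true := by decide +kernel
theorem c20_5_ok : c20_5.ok = true := by decide +kernel
theorem c20_9_ok : c20_9.ok = true := by decide +kernel
theorem c20_11_ok : c20_11.ok = true := by decide +kernel
theorem c21_1_ok : c21_1.ok = true := by decide +kernel
theorem c21_2_ok : c21_2.ok = true := by decide +kernel
theorem c21_3_ok : c21_3.ok = true := by decide +kernel
theorem c21_4_ok : c21_4.ok = true := by decide +kernel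
theorem c21_5_ok : c21_5.ok = true := by decide +kernel
theorem c21_11_ok : c21_11.ok = true := by decide +kernel
theorem c22_1_ok : c22_1.ok = true := by decide +kernel
theorem c22_2_ok : c22_2.ok = true := by decide +kernel
theorem c22_3_ok : c22_3.ok = true := by decide +kernel
theorem c22_4_ok : c22_4.ok = true := by decide +kernel
theorem c22_5_ok : c22_5.ok = true := by decide +kernel
theorem c23_1_ok : c23_1.ok = true := by decide +kernel
theorem c23_2_ok : c23_2.ok = true := by decide +kernel
theorem c23_3_ok : c23_3.ok = true := by decide +kernel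
theorem c23_4_ok : c23_4.ok = true := by decide +kernel
theorem c24_1_ok : c24_1.ok = true := by decide +kernel
theorem c24_4_ok : c24_4.ok = true := by decide +kernel
theorem c24_5_ok : c24_5.ok = true := by decide +kernel
theorem c24_10_ok : c24_10.ok = true := by decide +kernel
theorem c24_11_ok : c24_11.ok = true := by decide +kernel
theorem c24_20_ok : c24_20.ok = true := by decide +kernel
theorem c24_21_ok : c24_21.ok = true := by decide +kernel
theorem c25_1_ok : c25_1.ok = true := by decide +kernel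
theorem c25_4_ok : c25_4.ok = true := by decide +kernel
theorem c25_5_ok : c25_5.ok = true := by decide +kernel
theorem c26_1_ok : c26_1.ok = true := by decide +kernel
theorem c26_4_ok : c26_4.ok = true := by decide +kernel
theorem c26_5_ok : c26_5.ok = true := by decide +kernel
theorem c28_1_ok : c28_1.ok = true := by decide +kernel
theorem c28_3_ok : c28_3.ok = true := by decide +kernel
theorem c28_4_ok : c28_4.ok = true := by decide +kernel
theorem c28_5_ok : c28_5.ok = true := by decide +kernel
theorem c29_1_ok : c29_1.ok = true := by decide +kernel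
theorem c29_5_ok : c29_5.ok = true := by decide +kernel
theorem c30_1_ok : c30_1.ok = true := by decide +kernel
theorem c30_3_ok : c30_3.ok = true := by decide +kernel
theorem c30_4_ok : c30_4.ok = true := by decide +kernel
theorem c31_1_ok : c31_1.ok = true := by decide +kernel

def cases : List (ℕ × ℕ) := [(2, 8), (2, 12), (2, 16), (3, 1), (4, 1), (4, 2), (4, 3), (4, 9), (4, 10), (4, 11), (5, 1), (5, 2), (5, 3), (5, 9), (5, 10), (5, 11), (6, 1), (6, 2), (6, 3), (6, 9), (6, 10), (6, 11), (7, 1), (7, 2), (7, 3), (7, 11), (8, 1), (8, 2), (8, 4), (8, 6), (8, 7), (8, 18), (8, 20), (8, 21), (8, 22), (8, 23), (9, 4), (9, 23), (10, 1), (10, 4), (10, 6), (10, 7), (10, 21), (11, 1), (12, 1), (12, 3), (12, 6), (12, 7), (12, 9), (12, 10), (12, 11), (12, 20), (12, 21), (13, 1), (13, 2), (13, 3), (13, 11), (14, 1), (14, 2), (14, 3), (14, 10), (14, 11), (15, 1), (15, 3), (16, 1), (16, 4), (16, 5), (16, 6), (16, 8), (16, 10), (16, 11), (16, 14), (16, 15), (17, 1), (17, 4), (17, 5), (17, 11), (18, 1), (18, 4), (18, 5), (18,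 10), (18, 11), (19, 1), (19, 4), (19, 5), (20, 1), (20, 2), (20, 3), (20, 4), (20, 5), (20, 9), (20, 11), (21, 1), (21, 2), (21, 3), (21, 4), (21, 5), (21, 11), (22, 1), (22, 2), (22, 3), (22, 4), (22, 5), (23, 1), (23, 2), (23, 3), (23, 4), (24, 1), (24, 4), (24, 5), (24, 10), (24, 11), (24, 20), (24, 21), (25, 1), (25, 4), (25, 5), (26, 1), (26, 4), (26, 5), (28, 1), (28, 3), (28, 4), (28, 5), (29, 1), (29, 5), (30, 1), (30, 3), (30, 4), (31, 1)]

theorem all : ∀ p ∈ cases, UnbM p.1 p.2 := by
  intro p hp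
  simp only [cases, List.mem_cons, List.not_mem_nil, or_false] at hp
  rcases hp with rfl | rfl | rfl | rfl | rfl | rfl | rfl | rfl | rfl | rfl | rfl | rfl | rfl | rfl | rfl | rfl | rfl | rfl | rfl | rfl | rfl | rfl | rfl | rfl | rfl | rfl | rfl | rfl | rfl | rfl | rfl | rfl | rfl | rfl | rfl | rfl | rfl | rfl | rfl | rfl | rfl | rfl | rfl | rfl | rfl | rfl | rfl | rfl | rfl | rfl | rfl | rfl | rfl | rfl | rfl | rfl | rfl | rfl | rfl | rfl | rfl | rfl | rfl | rfl | rfl | rfl | rfl | rfl | rfl | rfl | rfl | rfl | rfl | rfl | rfl | rfl | rfl | rfl | rfl | rfl | rfl | rfl | rfl | rfl | rfl | rfl | rfl | rfl | rfl | rfl | rfl | rfl | rfl | rfl | rfl | rfl | rfl | rfl | rfl | rfl | rfl | rfl | rfl | rfl | rfl | rfl | rfl | rfl | rfl | rfl | rfl | rfl | rfl | rfl | rfl | rfl | rfl | rfl | rfl | rfl | rfl | rfl | rfl | rfl | rfl | rfl | rfl | rfl | rfl | rfl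
  · exact Cert.unb c2_8_ok
  · exact Cert.unb c2_12_ok
  · exact Cert.unb c2_16_ok
  · exact Cert.unb c3_1_ok
  · exact Cert.unb c4_1_ok
  · exact Cert.unb c4_2_ok
  · exact Cert.unb c4_3_ok
  · exact Cert.unb c4_9_ok
  · exact Cert.unb c4_10_ok
  · exact Cert.unb c4_11_ok
  · exact Cert.unb c5_1_ok
  · exact Cert.unb c5_2_ok
  · exact Cert.unb c5_3_ok
  · exact Cert.unb c5_9_ok
  · exact Cert.unb c5_10_ok
  · exact Cert.unb c5_11_ok
  · exact Cert.unb c6_1_ok
  · exact Cert.unb c6_2_ok
  · exact Cert.unb c6_3_ok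
  · exact Cert.unb c6_9_ok
  · exact Cert.unb c6_10_ok
  · exact Cert.unb c6_11_ok
  · exact Cert.unb c7_1_ok
  · exact Cert.unb c7_2_ok
  · exact Cert.unb c7_3_ok
  · exact Cert.unb c7_11_ok
  · exact Cert.unb c8_1_ok
  · exact Cert.unb c8_2_ok
  · exact Cert.unb c8_4_ok
  · exact Cert.unb c8_6_ok
  · exact Cert.unb c8_7_ok
  · exact Cert.unb c8_18_ok
  · exact Cert.unb c8_20_ok
  · exact Cert.unb c8_21_ok
  · exact Cert.unb c8_22_ok
  · exact Cert.unb c8_23_ok
  · exact Cert.unb c9_4_ok
  · exact Cert.unb c9_23_ok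
  · exact Cert.unb c10_1_ok
  · exact Cert.unb c10_4_ok
  · exact Cert.unb c10_6_ok
  · exact Cert.unb c10_7_ok
  · exact Cert.unb c10_21_ok
  · exact Cert.unb c11_1_ok
  · exact Cert.unb c12_1_ok
  · exact Cert.unb c12_3_ok
  · exact Cert.unb c12_6_ok
  · exact Cert.unb c12_7_ok
  · exact Cert.unb c12_9_ok
  · exact Cert.unb c12_10_ok
  · exact Cert.unb c12_11_ok
  · exact Cert.unb c12_20_ok
  · exact Cert.unb c12_21_ok
  · exact Cert.unb c13_1_ok
  · exact Cert.unb c13_2_ok
  · exact Cert.unb c13_3_ok
  · exact Cert.unb c13_11_ok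
  · exact Cert.unb c14_1_ok
  · exact Cert.unb c14_2_ok
  · exact Cert.unb c14_3_ok
  · exact Cert.unb c14_10_ok
  · exact Cert.unb c14_11_ok
  · exact Cert.unb c15_1_ok
  · exact Cert.unb c15_3_ok
  · exact Cert.unb c16_1_ok
  · exact Cert.unb c16_4_ok
  · exact Cert.unb c16_5_ok
  · exact Cert.unb c16_6_ok
  · exact Cert.unb c16_8_ok
  · exact Cert.unb c16_10_ok
  · exact Cert.unb c16_11_ok
  · exact Cert.unb c16_14_ok
  · exact Cert.unb c16_15_ok
  · exact Cert.unb c17_1_ok
  · exact Cert.unb c17_4_ok
  · exact Cert.unb c17_5_ok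
  · exact Cert.unb c17_11_ok
  · exact Cert.unb c18_1_ok
  · exact Cert.unb c18_4_ok
  · exact Cert.unb c18_5_ok
  · exact Cert.unb c18_10_ok
  · exact Cert.unb c18_11_ok
  · exact Cert.unb c19_1_ok
  · exact Cert.unb c19_4_ok
  · exact Cert.unb c19_5_ok
  · exact Cert.unb c20_1_ok
  · exact Cert.unb c20_2_ok
  · exact Cert.unb c20_3_ok
  · exact Cert.unb c20_4_ok
  · exact Cert.unb c20_5_ok
  · exact Cert.unb c20_9_ok
  · exact Cert.unb c20_11_ok
  · exact Cert.unb c21_1_ok
  · exact Cert.unb c21_2_ok
  · exact Cert.unb c21_3_ok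
  · exact Cert.unb c21_4_ok
  · exact Cert.unb c21_5_ok
  · exact Cert.unb c21_11_ok
  · exact Cert.unb c22_1_ok
  · exact Cert.unb c22_2_ok
  · exact Cert.unb c22_3_ok
  · exact Cert.unb c22_4_ok
  · exact Cert.unb c22_5_ok
  · exact Cert.unb c23_1_ok
  · exact Cert.unb c23_2_ok
  · exact Cert.unb c23_3_ok
  · exact Cert.unb c23_4_ok
  · exact Cert.unb c24_1_ok
  · exact Cert.unb c24_4_ok
  · exact Cert.unb c24_5_ok
  · exact Cert.unb c24_10_ok
  · exact Cert.unb c24_11_ok
  · exact Cert.unb c24_20_ok
  · exact Cert.unb c24_21_ok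
  · exact Cert.unb c25_1_ok
  · exact Cert.unb c25_4_ok
  · exact Cert.unb c25_5_ok
  · exact Cert.unb c26_1_ok
  · exact Cert.unb c26_4_ok
  · exact Cert.unb c26_5_ok
  · exact Cert.unb c28_1_ok
  · exact Cert.unb c28_3_ok
  · exact Cert.unb c28_4_ok
  · exact Cert.unb c28_5_ok
  · exact Cert.unb c29_1_ok
  · exact Cert.unb c29_5_ok
  · exact Cert.unb c30_1_ok
  · exact Cert.unb c30_3_ok
  · exact Cert.unb c30_4_ok
  · exact Cert.unb c31_1_ok

end Pool.Agent.H299.RDE.U11
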